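import Mathlib
import Pool.Agent.SXF.Stmts

set_option autoImplicit false

/-! Row DEG of the squad SXF: the degree of a formula. -/

namespace Pool.Agent.SXF.H65

open MvPolynomial Pool.Agent.Helper78_ACIT Pool.Agent.WBX Pool.Agent.SXF

theorem values_snoc {A : Type} [CommRing A] (x : ℕ → A) (G : List Gate) (g : Gate) :
    values x (G ++ [g]) = values x G ++ [g.value x (values x G)] := by
  unfold values
  rw [List.foldl_append]
  rfl

theorem values_len {A : Type} [CommRing A] (x : ℕ → A) (G : List Gate) :
    (values x G).length = G.length := by
  induction G using List.reverseRecOn with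
  | nil => rfl
  | append_singleton G g ih =>
    rw [values_snoc, List.length_append, List.length_append, ih]
    rfl

theorem value_app {A : Type} [CommRing A] (x : ℕ → A) (vals l : List A) (g : Gate) (j : ℕ)
    (hg : g.RefsBelow j) (hj : j ≤ vals.length) : g.value x (vals ++ l) = g.value x vals := by
  have h : ∀ a, a < j → (vals ++ l).getD a 0 = vals.getD a 0 := fun a ha =>
    List.getD_append vals l 0 a (lt_of_lt_of_le ha hj)
  cases g with
  | zero => rfl
  | one => rfl
  | var v => rfl
  | add a b =>
    simp only [Gate.value]
    rw [h a hg.1, h b hg.2]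
  | sub a b =>
    simp only [Gate.value]
    rw [h a hg.1, h b hg.2]
  | mul a b =>
    simp only [Gate.value]
    rw [h a hg.1, h b hg.2]

theorem getD_some {G : List Gate} {j : ℕ} (hj : j < G.length) :
    G[j]? = some (G.getD j .zero) := by
  rw [List.getD_eq_getElem?_getD, List.getElem?_eq_getElem hj]
  rfl

theorem values_getD {A : Type} [CommRing A] (x : ℕ → A) (G : List Gate) :
    (∀ (i : ℕ) (g : Gate), G[i]? = some g → g.RefsBelow i) → ∀ j, j < G.length →
      (values x G).getD j 0 = (G.getD j .zero).value x (values x G) := by
  induction G using List.reverseRecOn with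
  | nil =>
    intro _ j hj
    exact absurd hj (Nat.not_lt_zero j)
  | append_singleton G g ih =>
    intro h j hj
    have hG : ∀ (i : ℕ) (g' : Gate), G[i]? = some g' → g'.RefsBelow i := by
      intro i g' hi
      apply h i g'
      have hi2 : i < G.length := by
        by_contra hcon
        rw [List.getElem?_eq_none (by omega)] at hi
        cases hi
      rw [List.getElem?_append_left hi2]
      exact hi
    rw [List.length_append, List.length_singleton] at hj
    have hlen := values_len x G
    have hrb := h j _ (getD_some (G := G ++ [g]) (j := j)
      (by rw [List.length_append, List.length_singleton]; exact hj))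
    rw [values_snoc]
    rw [value_app x (values x G) _ _ j hrb (by omega)]
    rcases Nat.lt_or_ge j G.length with hj2 | hj2
    · rw [List.getD_append _ _ _ _ (by omega), List.getD_append _ _ _ _ hj2]
      exact ih hG j hj2
    · have hj3 : j = G.length := by omega
      rw [List.getD_append_right _ _ _ _ (by omega), List.getD_append_right _ _ _ _ hj2, hlen,
        hj3, Nat.sub_self]
      rfl

theorem deg (hpot : PotStmt) : DegStmt := by
  intro G n hwf hex hv
  have hlen : 0 < G.length := List.length_pos_iff.mpr hwf.1
  obtain ⟨μ, hμ⟩ : ∃ μ : ℕ → ℕ, ∀ j,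
      μ j = ((values (X : ℕ → MvPolynomial ℕ ℤ) G).getD j 0).totalDegree := ⟨_, fun _ => rfl⟩
  have hval := values_getD (X : ℕ → MvPolynomial ℕ ℤ) G hwf.2
  have hout : poly G = (values (X : ℕ → MvPolynomial ℕ ℤ) G).getD (G.length - 1) 0 := by
    unfold poly out
    rw [List.getLastD_eq_getLast?, List.getLast?_eq_getElem?, values_len,
      List.getD_eq_getElem?_getD]
  have hsub : ∀ j < G.length, refs (G.getD j .zero) ≠ [] →
      μ j ≤ ((refs (G.getD j .zero)).map μ).sum := by
    intro j hj hr
    have hj2 := hval j hj
    rw [hμ, hj2]
    cases hg : G.getD j .zero with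
    | zero => rw [hg] at hr; exact absurd rfl hr
    | one => rw [hg] at hr; exact absurd rfl hr
    | var v => rw [hg] at hr; exact absurd rfl hr
    | add a b =>
      simp only [Gate.value, refs, List.map_cons, List.map_nil, List.sum_cons, List.sum_nil, hμ,
        add_zero]
      exact (totalDegree_add _ _).trans (max_le (Nat.le_add_right _ _) (Nat.le_add_left _ _))
    | sub a b =>
      simp only [Gate.value, refs, List.map_cons, List.map_nil, List.sum_cons, List.sum_nil, hμ,
        add_zero]
      exact (totalDegree_sub _ _).trans (max_le (Nat.le_add_right _ _) (Nat.le_add_left _ _))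
    | mul a b =>
      simp only [Gate.value, refs, List.map_cons, List.map_nil, List.sum_cons, List.sum_nil, hμ,
        add_zero]
      exact totalDegree_mul _ _
  have h1 := hpot G μ hwf hex hsub (G.length - 1) (by omega)
  rw [hout, ← hμ]
  refine h1.trans ?_
  unfold load
  rw [Finset.sum_comm]
  apply Finset.sum_le_sum
  intro j hj
  rw [Finset.mem_range] at hj
  by_cases hr : refs (G.getD j .zero) = []
  · rw [if_pos hr]
    have hj2 := hval j hj
    cases hg : G.getD j .zero with
    | zero =>
      have h0 : μ j = 0 := by
        rw [hμ, hj2, hg]
        exact totalDegree_zero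
      rw [h0, Nat.mul_zero]
      exact Nat.zero_le _
    | one =>
      have h0 : μ j = 0 := by
        rw [hμ, hj2, hg]
        exact totalDegree_one
      rw [h0, Nat.mul_zero]
      exact Nat.zero_le _
    | var v =>
      have hmem : Gate.var v ∈ G := by
        have := List.mem_of_getElem? (getD_some hj)
        rw [hg] at this
        exact this
      have hvn : v < n := hv v hmem
      have h0 : μ j ≤ 1 := by
        rw [hμ, hj2, hg]
        exact (totalDegree_X v).le
      have h2 : (if Gate.var v = Gate.var v then max 1 (fanOut G j) else 0) ≤
          ∑ u ∈ Finset.range n, if Gate.var v = Gate.var u then max 1 (fanOut G j) else 0 :=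
        Finset.single_le_sum (f := fun u => if Gate.var v = Gate.var u then max 1 (fanOut G j)
          else 0) (fun _ _ => Nat.zero_le _) (Finset.mem_range.mpr hvn)
      rw [if_pos rfl] at h2
      refine le_trans ?_ h2
      calc max 1 (fanOut G j) * μ j ≤ max 1 (fanOut G j) * 1 := Nat.mul_le_mul_left _ h0
        _ = max 1 (fanOut G j) := Nat.mul_one _
    | add a b => rw [hg] at hr; cases hr
    | sub a b => rw [hg] at hr; cases hr
    | mul a b => rw [hg] at hr; cases hr
  · rw [if_neg hr]
    exact Nat.zero_le _

end Pool.Agent.SXF.H65
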