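import Mathlib
import Pool.Agent.SXF.Stmts

set_option autoImplicit false

/-! Row GRE of the squad SXF: the greedy partition into intervals. -/

namespace Pool.Agent.SXF.H65

open Pool.Agent.SXF

theorem gre_aux (n m : ℕ) (w : ℕ → ℕ) : ∀ Q a : ℕ,
    ∑ i ∈ Finset.Ico a n, w i < (Q + 1) * (m + 1) →
    ∃ k : ℕ → ℕ, Monotone k ∧ (∀ i, k i ≤ 2 * Q) ∧
      ∀ r, (∑ i ∈ (Finset.Ico a n).filter fun i => k i = r, w i) ≤ m ∨
        ∃ i0, ∀ i, a ≤ i → i < n → k i = r → i = i0 := by
  intro Q
  induction Q with
  | zero =>
    intro a h
    refine ⟨fun _ => 0, fun _ _ _ => le_refl _, fun _ => bot_le, fun r => Or.inl ?_⟩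
    refine (Finset.sum_le_sum_of_subset (Finset.filter_subset _ _)).trans ?_
    omega
  | succ Q ih =>
    intro a h
    by_cases hsm : ∑ i ∈ Finset.Ico a n, w i ≤ m
    · refine ⟨fun _ => 0, fun _ _ _ => le_refl _, fun _ => bot_le, fun r => Or.inl ?_⟩
      exact (Finset.sum_le_sum_of_subset (Finset.filter_subset _ _)).trans hsm
    · have hex : ∃ e, m < ∑ i ∈ Finset.Ico a (e + 1), w i := by
        refine ⟨n, ?_⟩
        refine lt_of_lt_of_le (not_le.1 hsm) (Finset.sum_le_sum_of_subset ?_)
        exact Finset.Ico_subset_Ico_right (Nat.le_succ n)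
      classical
      let e := Nat.find hex
      have he : m < ∑ i ∈ Finset.Ico a (e + 1), w i := Nat.find_spec hex
      have hae : a ≤ e := by
        by_contra hc
        have h1 : Finset.Ico a (e + 1) = ∅ := Finset.Ico_eq_empty (by omega)
        rw [h1] at he
        simp at he
      have hlt : ∑ i ∈ Finset.Ico a e, w i ≤ m := by
        by_contra hc
        push Not at hc
        rcases Nat.eq_zero_or_pos e with h0 | h0
        · rw [h0, Finset.Ico_eq_empty (by omega)] at hc
          simp at hc
        · obtain ⟨e', he'⟩ : ∃ e', e = e' + 1 := ⟨e - 1, by omega⟩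
          rw [he'] at hc
          have := Nat.find_min' hex hc
          omega
      have hen : e < n := by
        by_contra hc
        have h1 : ∑ i ∈ Finset.Ico a n, w i ≤ ∑ i ∈ Finset.Ico a e, w i :=
          Finset.sum_le_sum_of_subset (Finset.Ico_subset_Ico_right (by omega))
        omega
      have hsplit : ∑ i ∈ Finset.Ico a (e + 1), w i + ∑ i ∈ Finset.Ico (e + 1) n, w i =
          ∑ i ∈ Finset.Ico a n, w i :=
        Finset.sum_Ico_consecutive w (by omega) (by omega)
      obtain ⟨k, hk, hkb, hkr⟩ := ih (e + 1) (by nlinarith)
      have v0 : ∀ i, i < e → (if i < e then 0 else if i = e then 1 else k i + 2) = 0 :=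
        fun i hi => if_pos hi
      refine ⟨fun i => if i < e then 0 else if i = e then 1 else k i + 2, ?_, ?_, ?_⟩
      · intro i j hij
        have hkk := hk hij
        show (if i < e then 0 else if i = e then 1 else k i + 2) ≤
          (if j < e then 0 else if j = e then 1 else k j + 2)
        split_ifs <;> omega
      · intro i
        have := hkb i
        show (if i < e then 0 else if i = e then 1 else k i + 2) ≤ 2 * (Q + 1)
        split_ifs <;> omega
      · intro r
        show (∑ i ∈ (Finset.Ico a n).filter
            fun i => (if i < e then 0 else if i = e then 1 else k i + 2) = r, w i) ≤ m ∨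
          ∃ i0, ∀ i, a ≤ i → i < n →
            (if i < e then 0 else if i = e then 1 else k i + 2) = r → i = i0
        rcases Nat.eq_zero_or_pos r with h0 | h0
        · left
          refine (Finset.sum_le_sum_of_subset ?_).trans hlt
          intro i hi
          rw [Finset.mem_filter, Finset.mem_Ico] at hi
          rw [Finset.mem_Ico]
          refine ⟨hi.1.1, ?_⟩
          by_contra hc
          have h2 := hi.2
          rw [if_neg hc] at h2
          split_ifs at h2 <;> omega
        · rcases Nat.lt_or_ge r 2 with h2 | h2
          · right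
            refine ⟨e, fun i _ _ hi => ?_⟩
            split_ifs at hi with h3 h4
            · omega
            · exact h4
            · omega
          · rcases hkr (r - 2) with h3 | ⟨i0, h3⟩
            · left
              refine (Finset.sum_le_sum_of_subset ?_).trans h3
              intro i hi
              rw [Finset.mem_filter, Finset.mem_Ico] at hi ⊢
              obtain ⟨⟨hi1, hi2⟩, hi3⟩ := hi
              split_ifs at hi3 with h4 h5
              · omega
              · omega
              · exact ⟨⟨by omega, hi2⟩, by omega⟩
            · right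
              refine ⟨i0, fun i _ hi2 hi3 => ?_⟩
              split_ifs at hi3 with h4 h5
              · omega
              · omega
              · exact h3 i (by omega) hi2 (by omega)

theorem gre : GreStmt := by
  intro n s m w hs
  have h1 : ∑ i ∈ Finset.Ico 0 n, w i < (s / (m + 1) + 1) * (m + 1) := by
    rw [← Finset.range_eq_Ico]
    refine lt_of_le_of_lt hs ?_
    have h2 := Nat.div_add_mod s (m + 1)
    have h3 := Nat.mod_lt s (Nat.succ_pos m)
    nlinarith
  obtain ⟨k, hk, hkb, hkr⟩ := gre_aux n m w (s / (m + 1)) 0 h1
  refine ⟨k, hk, hkb, fun r => ?_⟩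
  rcases hkr r with h | ⟨i0, h⟩
  · left
    rw [Finset.range_eq_Ico]
    exact h
  · right
    exact ⟨i0, fun i hi hr => h i (Nat.zero_le i) hi hr⟩

end Pool.Agent.SXF.H65
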